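import Mathlib
import Pool.Agent.V7H55.FP.Defs

set_option autoImplicit false

/-!
# KU: characters are given by square roots
-/

namespace Pool.Agent.V7H70.FP

open Pool.Agent.V7H55.FP

section Alg

variable {G K : Type} [Group G] [Field K] [MulSemiringAction G K]

lemma neg_ne_self_of (h2 : (2 : K) ≠ 0) {x : K} (hx : x ≠ 0) : -x ≠ x := by
  intro h
  have h' : (2 : K) * x = 0 := by linear_combination -h
  rcases mul_eq_zero.mp h' with h | h
  · exact h2 h
  · exact hx h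

lemma sg_eq_zero {β : K} {g : G} (h : g • β = β) : sg β g = 0 := by
  simp [sg, h]

lemma sg_eq_one {β : K} {g : G} (h : g • β ≠ β) : sg β g = 1 := by
  simp [sg, h]

lemma smul_eq_or_neg {H : Subgroup G} {β : K} (hb : Fx H (β ^ 2)) {g : G} (hg : g ∈ H) :
    g • β = β ∨ g • β = -β := by
  have h := hb g hg
  rw [smul_pow'] at h
  exact sq_eq_sq_iff_eq_or_eq_neg.mp h

lemma zmod2_cases (a : ZMod 2) : a = 0 ∨ a = 1 := by
  revert a; decide

lemma zmod2_add_self (a : ZMod 2) : a + a = 0 := by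
  revert a; decide

end Alg

theorem t_KU : S_KU := by
  intro F K _ _ _ _ h2 H hH e hLC hadd
  classical
  by_cases h0 : ∀ h ∈ H, e h = 0
  · refine ⟨1, one_ne_zero, fun u _ => by simp, fun h hh => ?_⟩
    rw [h0 h hh, sg_eq_zero (by simp)]
  push Not at h0
  obtain ⟨τ, hτH, hτ⟩ := h0
  have he1 : e 1 = 0 := by
    have h := hadd 1 H.one_mem 1 H.one_mem
    rw [mul_one] at h
    have h' : e 1 + e 1 = e 1 + 0 := by rw [add_zero]; exact h.symm
    exact add_left_cancel h'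
  have heinv : ∀ h ∈ H, e h⁻¹ = e h := by
    intro h hh
    have h' := hadd h hh h⁻¹ (H.inv_mem hh)
    rw [mul_inv_cancel, he1] at h'
    have h'' := zmod2_add_self (e h)
    have : e h + e h⁻¹ = e h + e h := by rw [← h', h'']
    exact add_left_cancel this
  -- the kernel
  let H0 : Subgroup (K ≃ₐ[F] K) :=
    { carrier := {h | h ∈ H ∧ e h = 0}
      mul_mem' := by
        rintro a b ⟨ha, ha'⟩ ⟨hb, hb'⟩
        exact ⟨H.mul_mem ha hb, by rw [hadd a ha b hb, ha', hb', add_zero]⟩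
      one_mem' := ⟨H.one_mem, he1⟩
      inv_mem' := by
        rintro a ⟨ha, ha'⟩
        exact ⟨H.inv_mem ha, by rw [heinv a ha, ha']⟩ }
  have hmem : ∀ g, g ∈ H0 ↔ g ∈ H ∧ e g = 0 := fun g => Iff.rfl
  have hclosed : IsClosed (H0 : Set (K ≃ₐ[F] K)) := by
    rw [← isOpen_compl_iff, isOpen_iff_mem_nhds]
    intro x hx
    by_cases hxH : x ∈ H
    · obtain ⟨W, hWo, hW⟩ := hLC
      have hopen : IsOpen ((fun g => x⁻¹ * g) ⁻¹' (W : Set (K ≃ₐ[F] K))) :=
        hWo.preimage (continuous_const_mul x⁻¹)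
      refine Filter.mem_of_superset (hopen.mem_nhds (by simp [W.one_mem])) ?_
      intro y hy hyH0
      rw [SetLike.mem_coe, hmem] at hyH0
      apply hx
      rw [SetLike.mem_coe, hmem]
      refine ⟨hxH, ?_⟩
      have h' := hW x hxH (x⁻¹ * y) (H.mul_mem (H.inv_mem hxH) hyH0.1) hy
      rw [mul_inv_cancel_left] at h'
      rw [← h', hyH0.2]
    · refine Filter.mem_of_superset (hH.isOpen_compl.mem_nhds hxH) ?_
      intro y hy hyH0
      exact hy hyH0.1
  have hfix := InfiniteGalois.fixingSubgroup_fixedField (⟨H0, hclosed⟩ : ClosedSubgroup (K ≃ₐ[F] K))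
  have hτ0 : τ ∉ (IntermediateField.fixedField H0).fixingSubgroup := by
    intro h
    have h' : τ ∈ H0 := by
      have := hfix ▸ h
      exact this
    exact hτ h'.2
  obtain ⟨v, hv, hvτ⟩ : ∃ v : K, (∀ h ∈ H0, h v = v) ∧ τ v ≠ v := by
    rw [IntermediateField.mem_fixingSubgroup_iff] at hτ0
    push Not at hτ0
    obtain ⟨v, hv, hvτ⟩ := hτ0
    rw [IntermediateField.mem_fixedField_iff] at hv
    exact ⟨v, hv, hvτ⟩
  have hτ1 : e τ = 1 := (zmod2_cases (e τ)).resolve_left hτ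
  have hconj : ∀ h ∈ H0, τ⁻¹ * h * τ ∈ H0 := by
    rintro h ⟨hh, hh'⟩
    refine ⟨H.mul_mem (H.mul_mem (H.inv_mem hτH) hh) hτH, ?_⟩
    rw [hadd _ (H.mul_mem (H.inv_mem hτH) hh) _ hτH, hadd _ (H.inv_mem hτH) _ hh, heinv τ hτH, hh',
      add_zero, zmod2_add_self]
  have hsq : τ * τ ∈ H0 := ⟨H.mul_mem hτH hτH, by rw [hadd _ hτH _ hτH, zmod2_add_self]⟩
  have hγ0 : v - τ v ≠ 0 := fun h => hvτ (sub_eq_zero.mp h).symm
  have hγfix : ∀ h ∈ H0, h (v - τ v) = v - τ v := by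
    intro h hh
    have h1 := hv _ (hconj h hh)
    have h2 : h (τ v) = τ v := by
      have h3 : τ ((τ⁻¹ * h * τ) v) = τ v := by rw [h1]
      have h4 : τ * (τ⁻¹ * h * τ) = h * τ := by group
      rw [← AlgEquiv.mul_apply, h4, AlgEquiv.mul_apply] at h3
      exact h3
    rw [map_sub, hv h hh, h2]
  have hγτ : τ (v - τ v) = -(v - τ v) := by
    have h1 := hv _ hsq
    rw [AlgEquiv.mul_apply] at h1
    rw [map_sub, h1]
    ring
  have hγneg : ∀ h ∈ H, e h ≠ 0 → h (v - τ v) = -(v - τ v) := by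
    intro h hh hh'
    have h1 : τ⁻¹ * h ∈ H0 := by
      refine ⟨H.mul_mem (H.inv_mem hτH) hh, ?_⟩
      rw [hadd _ (H.inv_mem hτH) _ hh, heinv τ hτH, hτ1, (zmod2_cases (e h)).resolve_left hh']
      decide
    have h3 : τ ((τ⁻¹ * h) (v - τ v)) = τ (v - τ v) := by rw [hγfix _ h1]
    rw [← AlgEquiv.mul_apply, mul_inv_cancel_left, hγτ] at h3
    exact h3
  refine ⟨v - τ v, hγ0, ?_, ?_⟩
  · intro h hh
    change h ((v - τ v) ^ 2) = (v - τ v) ^ 2
    rw [map_pow]
    by_cases hh' : e h = 0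
    · rw [hγfix h ⟨hh, hh'⟩]
    · rw [hγneg h hh hh', neg_sq]
  · intro h hh
    by_cases hh' : e h = 0
    · rw [hh', sg_eq_zero]
      exact hγfix h ⟨hh, hh'⟩
    · rw [(zmod2_cases (e h)).resolve_left hh', sg_eq_one]
      change h (v - τ v) ≠ v - τ v
      rw [hγneg h hh hh']
      exact neg_ne_self_of h2 hγ0

end Pool.Agent.V7H70.FP
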