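import Mathlib
import Pool.Agent.V7H55.FP.Defs
import Pool.Agent.V7H70.FP.KU

set_option autoImplicit false

/-!
# D2: coboundaries give norms
-/

namespace Pool.Agent.V7H70.FP

open Pool.Agent.V7H55.FP

section Alg

variable {G K : Type} [Group G] [Field K] [MulSemiringAction G K]

/-- the sign `(-1)^a` -/
def sn (K : Type) [Field K] (a : ZMod 2) : K := if a = 0 then 1 else -1

lemma sn_mul (a b : ZMod 2) : sn K a * sn K b = sn K (a + b) := by
  rcases zmod2_cases a with rfl | rfl <;> rcases zmod2_cases b with rfl | rfl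
  · simp [sn]
  · simp [sn]
  · simp [sn]
  · have : (1 : ZMod 2) + 1 = 0 := by decide
    rw [this]
    simp [sn]

lemma smul_sn (g : G) (a : ZMod 2) : g • (sn K a) = sn K a := by
  rcases zmod2_cases a with rfl | rfl
  · simp [sn]
  · simp [sn]

lemma smul_eq_sn {H : Subgroup G} {β : K} (hb : Fx H (β ^ 2)) {g : G} (hg : g ∈ H) :
    g • β = sn K (sg β g) * β := by
  rcases smul_eq_or_neg hb hg with h | h
  · rw [sg_eq_zero h, h]; simp [sn]
  · by_cases h' : g • β = β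
    · rw [sg_eq_zero h', h']; simp [sn]
    · rw [sg_eq_one h', h]; simp [sn]

/-- the computation: an element fixed by `U` and `τ` is fixed by `H` -/
lemma fx_of_half {H U : Subgroup G} {τ : G} (hU : ∀ h ∈ H, h ∈ U ∨ τ⁻¹ * h ∈ U) {x : K}
    (h1 : Fx U x) (h2 : τ • x = x) : Fx H x := by
  intro h hh
  rcases hU h hh with h' | h'
  · exact h1 h h'
  · have h3 : τ • ((τ⁻¹ * h) • x) = τ • x := by rw [h1 _ h']
    rw [smul_smul, mul_inv_cancel_left, h2] at h3
    exact h3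

/-- the algebraic core of D2 -/
lemma core {H U : Subgroup G} {τ : G} (h2 : (2 : K) ≠ 0) (hτH : τ ∈ H)
    (hUH : U ≤ H) (hU : ∀ h ∈ H, h ∈ U ∨ τ⁻¹ * h ∈ U) (hconj : ∀ h ∈ U, τ⁻¹ * h * τ ∈ U)
    (hsq : τ * τ ∈ U)
    {α β ω : K} (hα0 : α ≠ 0) (hα : Fx H (α ^ 2)) (hβ : Fx H (β ^ 2))
    (hαU : Fx U α) (hατ : τ • α = -α) {e : G → ZMod 2}
    (he1 : ∀ h ∈ U, e (τ⁻¹ * h * τ) = e h + sg β h) (he2 : e (τ * τ) = sg β τ)
    (hω0 : ω ≠ 0) (hω : ∀ h ∈ U, h • ω = sn K (e h) * ω) (hω2 : Fx U (ω ^ 2)) :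
    ∃ r t : K, Fx H r ∧ Fx H t ∧ β ^ 2 = r ^ 2 - α ^ 2 * t ^ 2 := by
  obtain ⟨ω', hω'⟩ : ∃ ω' : K, ω' = τ • ω := ⟨_, rfl⟩
  have hω'0 : ω' ≠ 0 := by
    intro h
    rw [h] at hω'
    exact hω0 ((smul_eq_zero_iff_eq τ).mp hω'.symm)
  have hω'U : ∀ h ∈ U, h • ω' = sn K (e h + sg β h) * ω' := by
    intro h hh
    have h3 : h • (τ • ω) = τ • ((τ⁻¹ * h * τ) • ω) := by
      rw [smul_smul, smul_smul]
      congr 1
      group
    rw [hω', h3, hω _ (hconj h hh), he1 h hh, smul_mul', smul_sn]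
  have hτω' : τ • ω' = sn K (sg β τ) * ω := by
    rw [hω', smul_smul, hω _ hsq, he2]
  have hω'2 : Fx U (ω' ^ 2) := by
    intro h hh
    rw [smul_pow', hω'U h hh, mul_pow]
    rcases zmod2_cases (e h + sg β h) with h' | h' <;> rw [h'] <;> simp [sn]
  have hτω2 : τ • (ω ^ 2) = ω' ^ 2 := by rw [smul_pow', hω']
  have hτω'2 : τ • (ω' ^ 2) = ω ^ 2 := by
    rw [smul_pow', hτω', mul_pow]
    rcases zmod2_cases (sg β τ) with h' | h' <;> rw [h'] <;> simp [sn]
  -- the product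
  have hc : Fx H (ω * ω' * β) := by
    refine fx_of_half hU ?_ ?_
    · intro h hh
      rw [smul_mul', smul_mul', hω h hh, hω'U h hh, smul_eq_sn hβ (hUH hh)]
      have h3 : sn K (e h) * ω * (sn K (e h + sg β h) * ω') * (sn K (sg β h) * β) =
          (sn K (e h) * sn K (e h + sg β h) * sn K (sg β h)) * (ω * ω' * β) := by ring
      rw [h3, sn_mul, sn_mul]
      have h4 : e h + (e h + sg β h) + sg β h = 0 := by
        have h5 := zmod2_add_self (e h)
        have h6 := zmod2_add_self (sg β h)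
        calc e h + (e h + sg β h) + sg β h = (e h + e h) + (sg β h + sg β h) := by ring
          _ = 0 := by rw [h5, h6, add_zero]
      rw [h4]; simp [sn]
    · rw [smul_mul', smul_mul', ← hω', hτω', smul_eq_sn hβ hτH]
      have h3 : ω' * (sn K (sg β τ) * ω) * (sn K (sg β τ) * β) =
          (sn K (sg β τ) * sn K (sg β τ)) * (ω * ω' * β) := by ring
      rw [h3, sn_mul, zmod2_add_self]; simp [sn]
  have h2fix : ∀ g : G, g • (2 : K) = 2 := fun g => by
    have := map_ofNat (MulSemiringAction.toRingHom G K g) 2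
    simpa using this
  have ha : Fx H ((ω ^ 2 + ω' ^ 2) / 2) := by
    refine fx_of_half hU ?_ ?_
    · intro h hh
      rw [smul_div₀', smul_add, hω2 h hh, hω'2 h hh, h2fix]
    · rw [smul_div₀', smul_add, hτω2, hτω'2, h2fix, add_comm]
  have hb : Fx H ((ω ^ 2 - ω' ^ 2) / (2 * α)) := by
    refine fx_of_half hU ?_ ?_
    · intro h hh
      rw [smul_div₀', smul_sub, hω2 h hh, hω'2 h hh, smul_mul', h2fix, hαU h hh]
    · rw [smul_div₀', smul_sub, hτω2, hτω'2, smul_mul', h2fix, hατ]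
      rw [← neg_sub, mul_neg, neg_div_neg_eq]
  have hN : ((ω ^ 2 + ω' ^ 2) / 2) ^ 2 - α ^ 2 * ((ω ^ 2 - ω' ^ 2) / (2 * α)) ^ 2 =
      (ω * ω') ^ 2 := by
    field_simp
    ring
  have hNfix : Fx H ((ω * ω') ^ 2) := by
    intro h hh
    rw [← hN, smul_sub, smul_pow', ha h hh, smul_mul', hα h hh, smul_pow', hb h hh]
  refine ⟨(ω * ω' * β) * ((ω ^ 2 + ω' ^ 2) / 2) / (ω * ω') ^ 2,
    (ω * ω' * β) * ((ω ^ 2 - ω' ^ 2) / (2 * α)) / (ω * ω') ^ 2, ?_, ?_, ?_⟩
  · intro h hh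
    rw [smul_div₀', smul_mul', hc h hh, ha h hh, hNfix h hh]
  · intro h hh
    rw [smul_div₀', smul_mul', hc h hh, hb h hh, hNfix h hh]
  · have h3 : (ω * ω') ^ 2 ≠ 0 := pow_ne_zero 2 (mul_ne_zero hω0 hω'0)
    have h4 : ((ω * ω' * β) * ((ω ^ 2 + ω' ^ 2) / 2) / (ω * ω') ^ 2) ^ 2 -
        α ^ 2 * ((ω * ω' * β) * ((ω ^ 2 - ω' ^ 2) / (2 * α)) / (ω * ω') ^ 2) ^ 2 =
        (ω * ω' * β) ^ 2 * (((ω ^ 2 + ω' ^ 2) / 2) ^ 2 -
          α ^ 2 * ((ω ^ 2 - ω' ^ 2) / (2 * α)) ^ 2) / ((ω * ω') ^ 2) ^ 2 := by ring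
    rw [h4, hN]
    field_simp

end Alg

theorem t_D2 : S_D2 := by
  intro F K _ _ _ _ h2 _ H hH α β hα0 hβ0 hα hβ e hLC hadd
  classical
  by_cases hαH : Fx H α
  · refine ⟨(β ^ 2 + 1) / 2, (β ^ 2 - 1) / (2 * α), ?_, ?_, ?_⟩
    · intro h hh
      rw [smul_div₀', smul_add, hβ h hh, smul_one]
      congr 1
      exact map_ofNat h 2
    · intro h hh
      rw [smul_div₀', smul_sub, hβ h hh, smul_one, smul_mul', hαH h hh]
      congr 2
      exact map_ofNat h 2
    · field_simp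
      ring
  · unfold Fx at hαH
    push Not at hαH
    obtain ⟨τ, hτH, hτ⟩ := hαH
    have hτα : τ • α = -α := (smul_eq_or_neg hα hτH).resolve_left hτ
    let U : Subgroup (K ≃ₐ[F] K) :=
      { carrier := {h | h ∈ H ∧ h • α = α}
        mul_mem' := by
          rintro a b ⟨ha, ha'⟩ ⟨hb, hb'⟩
          exact ⟨H.mul_mem ha hb, by rw [mul_smul, hb', ha']⟩
        one_mem' := ⟨H.one_mem, one_smul _ _⟩
        inv_mem' := by
          rintro a ⟨ha, ha'⟩
          exact ⟨H.inv_mem ha, by rw [inv_smul_eq_iff, ha']⟩ }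
    have hmem : ∀ g, g ∈ U ↔ g ∈ H ∧ g • α = α := fun g => Iff.rfl
    have hUH : U ≤ H := fun g hg => hg.1
    have hUeq : (U : Set (K ≃ₐ[F] K)) =
        (H : Set (K ≃ₐ[F] K)) ∩ ((IntermediateField.adjoin F {α}).fixingSubgroup : Set _) := by
      ext g
      simp only [SetLike.mem_coe, hmem, Set.mem_inter_iff]
      refine and_congr_right fun _ => ?_
      rw [IntermediateField.mem_fixingSubgroup_iff]
      constructor
      · intro hg x hx
        induction hx using IntermediateField.adjoin_induction with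
        | mem x hx => rw [Set.mem_singleton_iff.mp hx]; exact hg
        | algebraMap x => exact g.commutes x
        | add x y _ _ hx hy => rw [map_add, hx, hy]
        | mul x y _ _ hx hy => rw [map_mul, hx, hy]
        | inv x _ hx => rw [map_inv₀, hx]
      · intro hg
        exact hg α (IntermediateField.mem_adjoin_simple_self F α)
    have hUc : IsClosed (U : Set (K ≃ₐ[F] K)) := by
      rw [hUeq]
      exact hH.inter (InfiniteGalois.fixingSubgroup_isClosed _)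
    have hUor : ∀ h ∈ H, h ∈ U ∨ τ⁻¹ * h ∈ U := by
      intro h hh
      rcases smul_eq_or_neg hα hh with h' | h'
      · exact Or.inl ⟨hh, h'⟩
      · refine Or.inr ⟨H.mul_mem (H.inv_mem hτH) hh, ?_⟩
        rw [mul_smul, h', inv_smul_eq_iff, hτα]
    have hconj : ∀ h ∈ U, τ⁻¹ * h * τ ∈ U := by
      rintro h ⟨hh, hh'⟩
      refine ⟨H.mul_mem (H.mul_mem (H.inv_mem hτH) hh) hτH, ?_⟩
      rw [mul_smul, mul_smul, hτα, smul_neg, hh', inv_smul_eq_iff, hτα]
    have hsq : τ * τ ∈ U := ⟨H.mul_mem hτH hτH, by rw [mul_smul, hτα, smul_neg, hτα, neg_neg]⟩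
    have hsα0 : ∀ h ∈ U, sg α h = 0 := fun h hh => sg_eq_zero hh.2
    have hsατ : sg α τ = 1 := sg_eq_one hτ
    have haddU : ∀ g ∈ U, ∀ h ∈ U, e (g * h) = e g + e h := by
      intro g hg h hh
      rw [hadd g (hUH hg) h (hUH hh), hsα0 h hh, mul_zero, add_zero]
    have hLCU : LC U e := by
      obtain ⟨W, hWo, hW⟩ := hLC
      exact ⟨W, hWo, fun h hh w hw hwW => hW h (hUH hh) w (hUH hw) hwW⟩
    obtain ⟨ω, hω0, hω2, hωe⟩ := t_KU F K h2 U hUc e hLCU haddU
    refine core h2 hτH hUH hUor hconj hsq hα0 hα hβ (fun h hh => hh.2) hτα (e := e) ?_ ?_ hω0 ?_ hω2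
    · intro h hh
      have h3 := hadd h (hUH hh) τ hτH
      have h4 := hadd τ hτH (τ⁻¹ * h * τ) (hUH (hconj h hh))
      have h5 : τ * (τ⁻¹ * h * τ) = h * τ := by group
      rw [h5, h3, hsα0 _ (hconj h hh), hsατ, mul_zero, mul_one, add_zero] at h4
      have h6 : e τ + (e h + sg β h) = e τ + e (τ⁻¹ * h * τ) := by
        rw [← h4]; ring
      exact (add_left_cancel h6).symm
    · rw [hadd τ hτH τ hτH, hsατ, mul_one, zmod2_add_self, zero_add]
    · intro h hh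
      rw [hωe h hh]
      exact smul_eq_sn hω2 hh

end Pool.Agent.V7H70.FP
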