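import Mathlib
import Pool.Agent.V7H55.FP.Defs2

set_option autoImplicit false
set_option linter.unusedSectionVars false

/-!
# ZP: an element of infinite order generates `ℤ_2`
-/

namespace Pool.Agent.V7H70.FP

open Pool.Agent.V7H55.FP Topology

section

variable {G : Type} [Group G] [TopologicalSpace G] [IsTopologicalGroup G]

/-- the additive group of the 2-adic integers, written multiplicatively -/
abbrev A2 : Type := Multiplicative (PadicInt 2)

/-- the closure of the graph of `n ↦ σ ^ n` -/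
noncomputable def gam (σ : G) : Subgroup (A2 × G) :=
  (Subgroup.zpowers ((Multiplicative.ofAdd (1 : PadicInt 2), σ) : A2 × G)).topologicalClosure

lemma gam_closed (σ : G) : IsClosed (gam σ : Set (A2 × G)) := Subgroup.isClosed_topologicalClosure _

lemma ofAdd_one_zpow (n : ℤ) : (Multiplicative.ofAdd (1 : PadicInt 2)) ^ n =
    Multiplicative.ofAdd ((n : ℤ) : PadicInt 2) := by
  rw [← ofAdd_zsmul]
  simp

lemma pow_mem_gam (σ : G) (n : ℤ) :
    ((Multiplicative.ofAdd ((n : ℤ) : PadicInt 2), σ ^ n) : A2 × G) ∈ gam σ := by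
  have h : ((Multiplicative.ofAdd (1 : PadicInt 2), σ) : A2 × G) ^ n ∈ gam σ :=
    Subgroup.le_topologicalClosure _ (Subgroup.zpow_mem_zpowers _ n)
  rw [Prod.pow_mk, ofAdd_one_zpow] at h
  exact h

/-- the closure is the set of limits of the graph -/
lemma exists_near {σ : G} {x : A2 × G} (hx : x ∈ gam σ) {U : Set (A2 × G)} (hU : IsOpen U)
    (hxU : x ∈ U) : ∃ n : ℤ, ((Multiplicative.ofAdd ((n : ℤ) : PadicInt 2), σ ^ n) : A2 × G) ∈ U := by
  have h : x ∈ closure ((Subgroup.zpowers ((Multiplicative.ofAdd (1 : PadicInt 2), σ) : A2 × G) :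
      Subgroup (A2 × G)) : Set (A2 × G)) := hx
  rw [mem_closure_iff] at h
  obtain ⟨y, hyU, hy⟩ := h U hU hxU
  obtain ⟨n, rfl⟩ := Subgroup.mem_zpowers_iff.mp hy
  refine ⟨n, ?_⟩
  rw [Prod.pow_mk, ofAdd_one_zpow] at hyU
  exact hyU

variable [CompactSpace G] [T2Space G] [TotallyDisconnectedSpace G]

lemma inj1 (hG : Pro2 G) (σ g : G) (hg : ((1 : A2), g) ∈ gam σ) : g = 1 := by
  by_contra hne
  obtain ⟨V, hV⟩ := ProfiniteGrp.exist_openNormalSubgroup_sub_open_nhds_of_one
    (G := G) (U := {g}ᶜ) isOpen_compl_singleton (by simpa using fun h => hne h.symm)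
  have hVo : IsOpen ((V.toSubgroup : Subgroup G) : Set G) := V.isOpen'
  have hVn : (V.toSubgroup : Subgroup G).Normal := V.isNormal'
  obtain ⟨k, hk⟩ := hG V.toSubgroup hVn hVo
  have hσ : σ ^ (2 ^ k) ∈ (V.toSubgroup : Subgroup G) := by
    have := Subgroup.pow_index_mem V.toSubgroup σ
    rwa [hk] at this
  -- the neighbourhood
  have hU1 : IsOpen (Metric.ball (0 : PadicInt 2) ((2 : ℝ) ^ (-(k : ℤ)))) := Metric.isOpen_ball
  have hU2 : IsOpen ((fun h : G => g⁻¹ * h) ⁻¹' (V.toSubgroup : Set G)) :=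
    hVo.preimage (continuous_const_mul g⁻¹)
  have hU : IsOpen ((Multiplicative.toAdd ⁻¹' (Metric.ball (0 : PadicInt 2)
      ((2 : ℝ) ^ (-(k : ℤ))))) ×ˢ ((fun h : G => g⁻¹ * h) ⁻¹' (V.toSubgroup : Set G))) :=
    (hU1.preimage continuous_toAdd).prod hU2
  obtain ⟨n, hn1, hn2⟩ := exists_near hg hU ⟨by simp, by simp [V.toSubgroup.one_mem]⟩
  have hn3 : ‖((n : ℤ) : PadicInt 2)‖ ≤ ((2 : ℕ) : ℝ) ^ (-(k : ℤ)) := by
    have : dist ((n : ℤ) : PadicInt 2) 0 < (2 : ℝ) ^ (-(k : ℤ)) := hn1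
    rw [dist_zero_right] at this
    exact_mod_cast this.le
  rw [PadicInt.norm_int_le_pow_iff_dvd] at hn3
  obtain ⟨m, hm⟩ := hn3
  have hσn : σ ^ n ∈ (V.toSubgroup : Subgroup G) := by
    have h : σ ^ n = (σ ^ (2 ^ k)) ^ m := by
      rw [← zpow_natCast, ← zpow_mul, hm]
      push_cast
      rfl
    rw [h]
    exact Subgroup.zpow_mem _ hσ m
  have hn4 : g⁻¹ * σ ^ n ∈ (V.toSubgroup : Subgroup G) := hn2
  have hgV : g ∈ (V.toSubgroup : Subgroup G) := by
    have h := Subgroup.mul_mem _ hσn (Subgroup.inv_mem _ hn4)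
    have h' : σ ^ n * (g⁻¹ * σ ^ n)⁻¹ = g := by group
    rwa [h'] at h
  exact hV hgV rfl

lemma surj1 (σ : G) (x : A2) : ∃ g : G, (x, g) ∈ gam σ := by
  have hc : IsCompact (gam σ : Set (A2 × G)) := (gam_closed σ).isCompact
  have hc2 : IsClosed (Prod.fst '' (gam σ : Set (A2 × G))) := (hc.image continuous_fst).isClosed
  have hc3 : IsClosed ((fun z : PadicInt 2 => Multiplicative.ofAdd z) ⁻¹'
      (Prod.fst '' (gam σ : Set (A2 × G)))) := hc2.preimage continuous_ofAdd
  have h1 : Set.range (Int.cast : ℤ → PadicInt 2) ⊆ (fun z : PadicInt 2 => Multiplicative.ofAdd z) ⁻¹'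
      (Prod.fst '' (gam σ : Set (A2 × G))) := by
    rintro _ ⟨n, rfl⟩
    exact ⟨_, pow_mem_gam σ n, rfl⟩
  have h2 := closure_minimal h1 hc3
  rw [(PadicInt.denseRange_intCast (p := 2)).closure_eq] at h2
  obtain ⟨⟨y, g⟩, hy, hyx⟩ := h2 (Set.mem_univ (Multiplicative.toAdd x))
  have hyx' : y = x := hyx
  exact ⟨g, by rw [← hyx']; exact hy⟩

lemma inj2 (hG : Pro2 G) (σ : G) (hσ : ∀ n : ℕ, 0 < n → σ ^ n ≠ 1) (x : A2)
    (hx : (x, (1 : G)) ∈ gam σ) : x = 1 := by
  by_contra hne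
  have hy : Multiplicative.toAdd x ≠ 0 := hne
  have hspec := PadicInt.unitCoeff_spec hy
  set u := PadicInt.unitCoeff hy with hu
  set k := (Multiplicative.toAdd x).valuation with hk
  have hcl : IsClosed ((fun z : PadicInt 2 => ((Multiplicative.ofAdd (z * Multiplicative.toAdd x),
      (1 : G)) : A2 × G)) ⁻¹' (gam σ : Set (A2 × G))) := by
    refine (gam_closed σ).preimage ?_
    exact (continuous_ofAdd.comp (continuous_mul_const _)).prodMk continuous_const
  have h1 : Set.range (Int.cast : ℤ → PadicInt 2) ⊆ (fun z : PadicInt 2 =>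
      ((Multiplicative.ofAdd (z * Multiplicative.toAdd x), (1 : G)) : A2 × G)) ⁻¹'
        (gam σ : Set (A2 × G)) := by
    rintro _ ⟨n, rfl⟩
    have h := Subgroup.zpow_mem (gam σ) hx n
    rw [Prod.pow_mk, one_zpow] at h
    have h' : x ^ n = Multiplicative.ofAdd ((n : PadicInt 2) * Multiplicative.toAdd x) := by
      rw [← zsmul_eq_mul, ofAdd_zsmul, ofAdd_toAdd]
    rw [h'] at h
    exact h
  have h2 := closure_minimal h1 hcl
  rw [(PadicInt.denseRange_intCast (p := 2)).closure_eq] at h2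
  have h3 : ((Multiplicative.ofAdd (((u⁻¹ : (PadicInt 2)ˣ) : PadicInt 2) * Multiplicative.toAdd x),
      (1 : G)) : A2 × G) ∈ gam σ := h2 (Set.mem_univ _)
  have h4 : ((u⁻¹ : (PadicInt 2)ˣ) : PadicInt 2) * Multiplicative.toAdd x =
      (((2 ^ k : ℕ) : ℤ) : PadicInt 2) := by
    rw [hspec, Units.inv_mul_cancel_left]
    push_cast
    rfl
  rw [h4] at h3
  have h5 := pow_mem_gam σ ((2 ^ k : ℕ) : ℤ)
  have h6 := Subgroup.mul_mem _ (Subgroup.inv_mem _ h3) h5
  rw [Prod.inv_mk, Prod.mk_mul_mk, inv_mul_cancel, inv_one, one_mul] at h6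
  have h7 := inj1 hG σ _ h6
  rw [zpow_natCast] at h7
  exact hσ (2 ^ k) (by positivity) h7

lemma image2 (σ : G) (g : G) :
    g ∈ (Subgroup.zpowers σ).topologicalClosure ↔ ∃ x : A2, (x, g) ∈ gam σ := by
  constructor
  · intro hg
    have hc : IsCompact (gam σ : Set (A2 × G)) := (gam_closed σ).isCompact
    have hc2 : IsClosed (Prod.snd '' (gam σ : Set (A2 × G))) := (hc.image continuous_snd).isClosed
    have h1 : ((Subgroup.zpowers σ : Subgroup G) : Set G) ⊆
        Prod.snd '' (gam σ : Set (A2 × G)) := by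
      intro h hh
      obtain ⟨n, rfl⟩ := Subgroup.mem_zpowers_iff.mp hh
      exact ⟨_, pow_mem_gam σ n, rfl⟩
    obtain ⟨⟨x, h⟩, hx, hxg⟩ := closure_minimal h1 hc2 hg
    have hxg' : h = g := hxg
    exact ⟨x, by rw [← hxg']; exact hx⟩
  · rintro ⟨x, hx⟩
    change g ∈ closure ((Subgroup.zpowers σ : Subgroup G) : Set G)
    rw [mem_closure_iff]
    intro U hU hgU
    obtain ⟨n, hn⟩ := exists_near hx (hU.preimage continuous_snd) hgU
    exact ⟨σ ^ n, hn, Subgroup.zpow_mem_zpowers _ n⟩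

theorem zp (hG : Pro2 G) (σ : G) (hσ : ∀ n : ℕ, 0 < n → σ ^ n ≠ 1) :
    Nonempty ((Subgroup.zpowers σ).topologicalClosure ≃ₜ* Multiplicative (PadicInt 2)) := by
  have : CompactSpace (gam σ) := isCompact_iff_compactSpace.mp (gam_closed σ).isCompact
  let p1 : gam σ →* A2 := (MonoidHom.fst A2 G).comp (gam σ).subtype
  have hp1c : Continuous p1 := continuous_fst.comp continuous_subtype_val
  have hp1 : Function.Bijective p1 := by
    constructor
    · rw [injective_iff_map_eq_one]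
      rintro ⟨⟨x, g⟩, hxg⟩ h
      have hx : x = 1 := h
      subst hx
      have := inj1 hG σ g hxg
      subst this
      rfl
    · intro x
      obtain ⟨g, hg⟩ := surj1 σ x
      exact ⟨⟨(x, g), hg⟩, rfl⟩
  let p2 : gam σ →* (Subgroup.zpowers σ).topologicalClosure :=
    ((MonoidHom.snd A2 G).comp (gam σ).subtype).codRestrict _
      (fun x => (image2 σ _).mpr ⟨x.1.1, x.2⟩)
  have hp2c : Continuous p2 :=
    Continuous.subtype_mk (continuous_snd.comp continuous_subtype_val) _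
  have hp2 : Function.Bijective p2 := by
    constructor
    · rw [injective_iff_map_eq_one]
      rintro ⟨⟨x, g⟩, hxg⟩ h
      have hg : g = 1 := congrArg Subtype.val h
      subst hg
      have := inj2 hG σ hσ x hxg
      subst this
      rfl
    · rintro ⟨g, hg⟩
      obtain ⟨x, hx⟩ := (image2 σ g).mp hg
      exact ⟨⟨(x, g), hx⟩, rfl⟩
  let e1 : gam σ ≃* A2 := MulEquiv.ofBijective p1 hp1
  let e2 : gam σ ≃* (Subgroup.zpowers σ).topologicalClosure := MulEquiv.ofBijective p2 hp2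
  have he1 : Continuous e1 := hp1c
  have he2 : Continuous e2 := hp2c
  have he1' : Continuous e1.symm :=
    Continuous.continuous_symm_of_equiv_compact_to_t2 (f := e1.toEquiv) he1
  have he2' : Continuous e2.symm :=
    Continuous.continuous_symm_of_equiv_compact_to_t2 (f := e2.toEquiv) he2
  exact ⟨{ e2.symm.trans e1 with
    continuous_toFun := he1.comp he2'
    continuous_invFun := he2.comp he1' }⟩

end

theorem t_ZP : S_ZP := by
  intro F K _ _ _ _ hG σ hσ
  exact zp hG σ hσ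

end Pool.Agent.V7H70.FP
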