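import Mathlib
import Pool.Agent.V7H55.FP.Defs
import Pool.Agent.V7H70.FP.D2

set_option autoImplicit false

/-!
# D1: norms give coboundaries
-/

namespace Pool.Agent.V7H70.FP

open Pool.Agent.V7H55.FP

section Alg

variable {G K : Type} [Group G] [Field K] [MulSemiringAction G K]

lemma sn_inj (h2 : (2 : K) ≠ 0) {x : K} (hx : x ≠ 0) {a b : ZMod 2}
    (h : sn K a * x = sn K b * x) : a = b := by
  rcases zmod2_cases a with rfl | rfl <;> rcases zmod2_cases b with rfl | rfl
  · rfl
  · simp only [sn, if_true, one_ne_zero, if_false, one_mul, neg_mul] at h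
    exact absurd h.symm (neg_ne_self_of h2 hx)
  · simp only [sn, if_true, one_ne_zero, if_false, one_mul, neg_mul] at h
    exact absurd h (neg_ne_self_of h2 hx)
  · rfl

lemma sn_div (a b : ZMod 2) (x y : K) : (sn K a * x) / (sn K b * y) = sn K (a + b) * (x / y) := by
  rw [← sn_mul]
  rcases zmod2_cases a with rfl | rfl <;> rcases zmod2_cases b with rfl | rfl <;>
    simp [sn, neg_div, div_neg]

open Classical in
/-- the function of D1 -/
noncomputable def fe (α ω ω' : K) (g : G) : ZMod 2 :=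
  if (g • α = α ∧ g • ω = ω) ∨ (g • α = -α ∧ g • ω = ω') then 0 else 1

lemma coreD1 {H : Subgroup G} (h2 : (2 : K) ≠ 0)
    {α β ω ω' r t : K} (hα0 : α ≠ 0) (hω0 : ω ≠ 0) (hω'0 : ω' ≠ 0)
    (hα : Fx H (α ^ 2)) (hβ : Fx H (β ^ 2))
    (hr : Fx H r) (ht : Fx H t) (hω : ω ^ 2 = r + t * α) (hω' : ω' ^ 2 = r - t * α)
    (hβω : β = ω * ω') :
    ∀ g ∈ H, ∀ h ∈ H, fe α ω ω' (g * h) =
      fe α ω ω' g + fe α ω ω' h + sg β g * sg α h := by
  have hnα := neg_ne_self_of h2 hα0
  have hω'' : ω' = β / ω := by rw [hβω]; field_simp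
  have hωω' : ω = β / ω' := by rw [hβω]; field_simp
  -- the two cases
  have hA : ∀ g ∈ H, g • α = α → g • ω = sn K (fe α ω ω' g) * ω := by
    intro g hg hgα
    have h1 : (g • ω) ^ 2 = ω ^ 2 := by
      rw [← smul_pow', hω, smul_add, smul_mul', hr g hg, ht g hg, hgα]
    rcases sq_eq_sq_iff_eq_or_eq_neg.mp h1 with h | h
    · have : fe α ω ω' g = 0 := by unfold fe; rw [if_pos (Or.inl ⟨hgα, h⟩)]
      rw [this, h]; simp [sn]
    · have : fe α ω ω' g = 1 := by
        unfold fe
        rw [if_neg]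
        rintro (⟨_, h'⟩ | ⟨h', _⟩)
        · rw [h] at h'; exact neg_ne_self_of h2 hω0 h'
        · rw [hgα] at h'; exact hnα h'.symm
      rw [this, h]; simp [sn]
  have hB : ∀ g ∈ H, g • α = -α → g • ω = sn K (fe α ω ω' g) * ω' := by
    intro g hg hgα
    have h1 : (g • ω) ^ 2 = ω' ^ 2 := by
      rw [← smul_pow', hω, hω', smul_add, smul_mul', hr g hg, ht g hg, hgα]
      ring
    rcases sq_eq_sq_iff_eq_or_eq_neg.mp h1 with h | h
    · have : fe α ω ω' g = 0 := by unfold fe; rw [if_pos (Or.inr ⟨hgα, h⟩)]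
      rw [this, h]; simp [sn]
    · have : fe α ω ω' g = 1 := by
        unfold fe
        rw [if_neg]
        rintro (⟨h', _⟩ | ⟨_, h'⟩)
        · rw [hgα] at h'; exact hnα h'
        · rw [h] at h'; exact neg_ne_self_of h2 hω'0 h'
      rw [this, h]; simp [sn]
  have hA' : ∀ g ∈ H, g • α = α → g • ω' = sn K (sg β g + fe α ω ω' g) * ω' := by
    intro g hg hgα
    conv_lhs => rw [hω'']
    rw [smul_div₀', smul_eq_sn hβ hg, hA g hg hgα, sn_div, ← hω'']
  have hB' : ∀ g ∈ H, g • α = -α → g • ω' = sn K (sg β g + fe α ω ω' g) * ω := by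
    intro g hg hgα
    conv_lhs => rw [hω'']
    rw [smul_div₀', smul_eq_sn hβ hg, hB g hg hgα, sn_div, ← hωω']
  intro g hg h hh
  have hgh := H.mul_mem hg hh
  rcases smul_eq_or_neg hα hh with hhα | hhα
  · rw [sg_eq_zero hhα, mul_zero, add_zero]
    rcases smul_eq_or_neg hα hg with hgα | hgα
    · have h3 : (g * h) • α = α := by rw [mul_smul, hhα, hgα]
      have h4 := hA _ hgh h3
      rw [mul_smul, hA h hh hhα, smul_mul', smul_sn, hA g hg hgα, ← mul_assoc, sn_mul] at h4
      rw [← sn_inj h2 hω0 h4, add_comm]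
    · have h3 : (g * h) • α = -α := by rw [mul_smul, hhα, hgα]
      have h4 := hB _ hgh h3
      rw [mul_smul, hA h hh hhα, smul_mul', smul_sn, hB g hg hgα, ← mul_assoc, sn_mul] at h4
      rw [← sn_inj h2 hω'0 h4, add_comm]
  · rw [sg_eq_one (by rw [hhα]; exact hnα : h • α ≠ α), mul_one]
    rcases smul_eq_or_neg hα hg with hgα | hgα
    · have h3 : (g * h) • α = -α := by rw [mul_smul, hhα, smul_neg, hgα]
      have h4 := hB _ hgh h3
      rw [mul_smul, hB h hh hhα, smul_mul', smul_sn, hA' g hg hgα, ← mul_assoc, sn_mul] at h4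
      rw [← sn_inj h2 hω'0 h4]; ring
    · have h3 : (g * h) • α = α := by rw [mul_smul, hhα, smul_neg, hgα, neg_neg]
      have h4 := hA _ hgh h3
      rw [mul_smul, hB h hh hhα, smul_mul', smul_sn, hB' g hg hgα, ← mul_assoc, sn_mul] at h4
      rw [← sn_inj h2 hω0 h4]; ring

end Alg

theorem t_D1 : S_D1 := by
  intro F K _ _ _ _ h2 hsqrt H α β r t hα0 hβ0 hα hβ hr ht hN
  classical
  obtain ⟨ω, hω⟩ := hsqrt (r + t * α)
  have hN' : β ^ 2 = (r + t * α) * (r - t * α) := by rw [hN]; ring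
  have hω0 : ω ≠ 0 := by
    intro h
    rw [h, zero_pow two_ne_zero] at hω
    rw [← hω, zero_mul] at hN'
    exact pow_ne_zero 2 hβ0 hN'
  have hω'0 : β / ω ≠ 0 := div_ne_zero hβ0 hω0
  have hω' : (β / ω) ^ 2 = r - t * α := by
    rw [div_pow, hN', hω, mul_div_assoc, mul_comm]
    rw [div_mul_cancel₀]
    rw [← hω]; exact pow_ne_zero 2 hω0
  refine ⟨fe α ω (β / ω), ?_, coreD1 h2 hα0 hω0 hω'0 hα hβ hr ht hω hω'
    (by field_simp)⟩
  have hint : ∀ x : K, IsIntegral F x := fun x => (Algebra.IsAlgebraic.isAlgebraic x).isIntegral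
  have := IntermediateField.adjoin.finiteDimensional (hint α)
  have := IntermediateField.adjoin.finiteDimensional (hint ω)
  refine ⟨(IntermediateField.adjoin F {α}).fixingSubgroup ⊓
    (IntermediateField.adjoin F {ω}).fixingSubgroup, ?_, ?_⟩
  · rw [Subgroup.coe_inf]
    exact (IntermediateField.fixingSubgroup_isOpen _).inter
      (IntermediateField.fixingSubgroup_isOpen _)
  · intro h _ w _ hw
    have h1 : w • α = α := by
      have h3 := (IntermediateField.mem_fixingSubgroup_iff _ _).mp (Subgroup.mem_inf.mp hw).1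
      exact h3 α (IntermediateField.mem_adjoin_simple_self F α)
    have h2 : w • ω = ω := by
      have h3 := (IntermediateField.mem_fixingSubgroup_iff _ _).mp (Subgroup.mem_inf.mp hw).2
      exact h3 ω (IntermediateField.mem_adjoin_simple_self F ω)
    unfold fe
    rw [mul_smul, mul_smul, h1, h2]

end Pool.Agent.V7H70.FP
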