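import Mathlib
import Pool.Agent.V7H70.FP.D2

set_option autoImplicit false

/-!
# C4: groups isomorphic to `ℤ_2`
-/

namespace Pool.Agent.V7H70.FP

open Pool.Agent.V7H55.FP Topology

/-- the first binary digit -/
def dg0 (a : ZMod (2 ^ 2)) : ZMod 2 := (a.val : ZMod 2)

/-- the second binary digit -/
def dg1 (a : ZMod (2 ^ 2)) : ZMod 2 := ((a.val / 2 : ℕ) : ZMod 2)

lemma dg1_add : ∀ a b : ZMod (2 ^ 2), dg1 (a + b) = dg1 a + dg1 b + dg0 a * dg0 b := by decide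

section

variable {G : Type} [Group G] {H : Subgroup G}

/-- characters with values in `ZMod 2` of a group isomorphic to `ℤ_2` -/
lemma char_eq (f : H ≃* Multiplicative (PadicInt 2)) (s : H → ZMod 2)
    (hs : ∀ g h, s (g * h) = s g + s h) (hne : ∃ h, s h ≠ 0) (h : H) :
    s h = dg0 (PadicInt.toZModPow 2 (Multiplicative.toAdd (f h))) := by
  have key : ∀ h : H, s h = ((PadicInt.toZModPow 2 (Multiplicative.toAdd (f h))).val : ZMod 2) *
      s (f.symm (Multiplicative.ofAdd 1)) := by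
    intro h
    obtain ⟨m, hm⟩ : ∃ m : ℕ, m = (PadicInt.toZModPow 2 (Multiplicative.toAdd (f h))).val := ⟨_, rfl⟩
    have h1 : PadicInt.toZModPow 2 (Multiplicative.toAdd (f h) - (m : PadicInt 2)) = 0 := by
      rw [map_sub, map_natCast, hm, ZMod.natCast_zmod_val, sub_self]
    have h2 : Multiplicative.toAdd (f h) - (m : PadicInt 2) ∈
        RingHom.ker (PadicInt.toZModPow (p := 2) 2) := h1
    rw [PadicInt.ker_toZModPow, Ideal.mem_span_singleton] at h2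
    obtain ⟨w, hw⟩ := h2
    have h3 : h = (f.symm (Multiplicative.ofAdd 1)) ^ m * (f.symm (Multiplicative.ofAdd w)) ^ 4 := by
      apply f.injective
      rw [map_mul, map_pow, map_pow, MulEquiv.apply_symm_apply, MulEquiv.apply_symm_apply]
      apply Multiplicative.toAdd.injective
      rw [toAdd_mul, toAdd_pow, toAdd_pow, toAdd_ofAdd, toAdd_ofAdd, nsmul_eq_mul, mul_one,
        nsmul_eq_mul]
      rw [sub_eq_iff_eq_add] at hw
      rw [hw]
      push_cast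
      ring
    have hpow : ∀ (g : H) (n : ℕ), s (g ^ n) = n * s g := by
      intro g n
      induction n with
      | zero =>
        have h4 := hs 1 1
        rw [mul_one] at h4
        have h5 : s 1 + s 1 = s 1 + 0 := by rw [add_zero]; exact h4.symm
        rw [pow_zero, Nat.cast_zero, zero_mul]
        exact add_left_cancel h5
      | succ n ih => rw [pow_succ, hs, ih]; push_cast; ring
    have h4 : ((4 : ℕ) : ZMod 2) = 0 := by decide
    rw [← hm]
    conv_lhs => rw [h3]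
    rw [hs, hpow, hpow, h4, zero_mul, add_zero]
  obtain ⟨h0, hh0⟩ := hne
  have h1 : s (f.symm (Multiplicative.ofAdd 1)) = 1 := by
    rcases zmod2_cases (s (f.symm (Multiplicative.ofAdd 1))) with h1 | h1
    · exfalso
      apply hh0
      rw [key h0, h1, mul_zero]
    · exact h1
  rw [key h, h1, mul_one]
  rfl

end

theorem c4 (F K : Type) [Field F] [Field K] [Algebra F K] [IsGalois F K] (h2 : (2 : K) ≠ 0)
    (hsqrt : ∀ x : K, ∃ y, y ^ 2 = x) (H : Subgroup (K ≃ₐ[F] K))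
    (hH : IsClosed (H : Set (K ≃ₐ[F] K))) (hiso : Nonempty (H ≃ₜ* Multiplicative (PadicInt 2)))
    (α β : K) (hα0 : α ≠ 0) (hβ0 : β ≠ 0) (hα : Fx H (α ^ 2)) (hβ : Fx H (β ^ 2)) :
    ∃ r t : K, Fx H r ∧ Fx H t ∧ β ^ 2 = r ^ 2 - α ^ 2 * t ^ 2 := by
  classical
  obtain ⟨f⟩ := hiso
  -- `sg` is a homomorphism on `H`
  have hsg : ∀ γ : K, γ ≠ 0 → Fx H (γ ^ 2) → ∀ g h : H,
      sg γ ((g * h : H) : K ≃ₐ[F] K) = sg γ (g : K ≃ₐ[F] K) + sg γ (h : K ≃ₐ[F] K) := by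
    intro γ hγ0 hγ g h
    have h3 := smul_eq_sn hγ (g * h).2
    rw [Subgroup.coe_mul, mul_smul, smul_eq_sn hγ h.2, smul_mul', smul_sn, smul_eq_sn hγ g.2,
      ← mul_assoc, sn_mul] at h3
    have h4 : sg γ (h : K ≃ₐ[F] K) + sg γ (g : K ≃ₐ[F] K) = sg γ ((g : K ≃ₐ[F] K) * h) := by
      rcases zmod2_cases (sg γ (h : K ≃ₐ[F] K) + sg γ (g : K ≃ₐ[F] K)) with ha | ha <;>
        rcases zmod2_cases (sg γ ((g : K ≃ₐ[F] K) * h)) with hb | hb
      · rw [ha, hb]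
      · rw [ha, hb] at h3
        simp only [sn, if_true, one_ne_zero, if_false, one_mul, neg_mul] at h3
        exact absurd h3.symm (neg_ne_self_of h2 hγ0)
      · rw [ha, hb] at h3
        simp only [sn, if_true, one_ne_zero, if_false, one_mul, neg_mul] at h3
        exact absurd h3 (neg_ne_self_of h2 hγ0)
      · rw [ha, hb]
    rw [Subgroup.coe_mul, ← h4, add_comm]
  by_cases hαs : ∃ h : H, sg α (h : K ≃ₐ[F] K) ≠ 0
  swap
  · push Not at hαs
    refine t_D2 F K h2 hsqrt H hH α β hα0 hβ0 hα hβ (fun _ => 0)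
      ⟨⊤, isOpen_univ, fun _ _ _ _ _ => rfl⟩ ?_
    intro g _ h hh
    rw [hαs ⟨h, hh⟩]
    simp
  by_cases hβs : ∃ h : H, sg β (h : K ≃ₐ[F] K) ≠ 0
  swap
  · push Not at hβs
    refine t_D2 F K h2 hsqrt H hH α β hα0 hβ0 hα hβ (fun _ => 0)
      ⟨⊤, isOpen_univ, fun _ _ _ _ _ => rfl⟩ ?_
    intro g hg h _
    rw [hβs ⟨g, hg⟩]
    simp
  have hαe := char_eq f.toMulEquiv (fun h : H => sg α (h : K ≃ₐ[F] K)) (hsg α hα0 hα) hαs
  have hβe := char_eq f.toMulEquiv (fun h : H => sg β (h : K ≃ₐ[F] K)) (hsg β hβ0 hβ) hβs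
  let e : (K ≃ₐ[F] K) → ZMod 2 := fun g => if hg : g ∈ H then
    dg1 (PadicInt.toZModPow 2 (Multiplicative.toAdd (f ⟨g, hg⟩))) else 0
  have he : ∀ (g : K ≃ₐ[F] K) (hg : g ∈ H), e g =
      dg1 (PadicInt.toZModPow 2 (Multiplicative.toAdd (f ⟨g, hg⟩))) := by
    intro g hg
    change (if hg : g ∈ H then _ else _) = _
    rw [dif_pos hg]
  refine t_D2 F K h2 hsqrt H hH α β hα0 hβ0 hα hβ e ?_ ?_
  · -- locally constant
    have hb : IsOpen (Metric.ball (0 : PadicInt 2) (((2 : ℕ) : ℝ) ^ (-((2 : ℕ) : ℤ)))) :=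
      Metric.isOpen_ball
    have hN : IsOpen ((fun w : H => Multiplicative.toAdd (f w)) ⁻¹'
        (Metric.ball (0 : PadicInt 2) (((2 : ℕ) : ℝ) ^ (-((2 : ℕ) : ℤ))))) :=
      hb.preimage (continuous_toAdd.comp f.continuous_toFun)
    rw [isOpen_induced_iff] at hN
    obtain ⟨O, hO, hON⟩ := hN
    have h1O : (1 : K ≃ₐ[F] K) ∈ O := by
      have : (1 : H) ∈ Subtype.val ⁻¹' O := by
        rw [hON]
        simp
      exact this
    obtain ⟨W, hW⟩ := ProfiniteGrp.exist_openNormalSubgroup_sub_open_nhds_of_one hO h1O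
    refine ⟨W.toSubgroup, W.isOpen', ?_⟩
    intro h hh w hw hwW
    have h1 : (⟨w, hw⟩ : H) ∈ Subtype.val ⁻¹' O := hW hwW
    rw [hON] at h1
    have h3 : ‖Multiplicative.toAdd (f ⟨w, hw⟩)‖ ≤ ((2 : ℕ) : ℝ) ^ (-((2 : ℕ) : ℤ)) := by
      have h4 : dist (Multiplicative.toAdd (f ⟨w, hw⟩)) 0 < ((2 : ℕ) : ℝ) ^ (-((2 : ℕ) : ℤ)) := h1
      rw [dist_zero_right] at h4
      exact h4.le
    rw [PadicInt.norm_le_pow_iff_mem_span_pow, ← PadicInt.ker_toZModPow, RingHom.mem_ker] at h3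
    rw [he _ (H.mul_mem hh hw), he _ hh]
    have h5 : (⟨h * w, H.mul_mem hh hw⟩ : H) = ⟨h, hh⟩ * ⟨w, hw⟩ := rfl
    rw [h5, map_mul, toAdd_mul, map_add, h3, add_zero]
  · intro g hg h hh
    rw [he _ (H.mul_mem hg hh), he _ hg, he _ hh]
    have h5 : (⟨g * h, H.mul_mem hg hh⟩ : H) = ⟨g, hg⟩ * ⟨h, hh⟩ := rfl
    have h6 := hβe ⟨g, hg⟩
    have h7 := hαe ⟨h, hh⟩
    change sg β g = _ at h6
    change sg α h = _ at h7
    rw [h5, map_mul, toAdd_mul, map_add, dg1_add, h6, h7]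
    rfl

end Pool.Agent.V7H70.FP
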