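import Mathlib
import Pool.Agent.V7H55.FP.Defs4
import Pool.Agent.V7H70.FP.C4

set_option autoImplicit false

/-! Piece C4 for helper55's project FREE PRODUCTS. -/

namespace Pool.Agent.V7H70.FP

open Pool.Agent.V7H55.FP

theorem t_C4 : S_C4 := fun F K _ _ _ _ h2 hs H hH hi α β ha hb h1 h2' =>
  c4 F K h2 hs H hH hi α β ha hb h1 h2'

end Pool.Agent.V7H70.FP
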